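import Pool.Agent.Helper65.EV.St

/-!
# Project EV, module RH: the weight of a reproduction from a level
-/

set_option autoImplicit false

open MeasureTheory ProbabilityTheory Set Filter
open scoped ENNReal Topology
open Pool.Agent.Helper84.Eve Pool.Agent.Helper65.EV

namespace Pool.Agent.Helper89.EV

private lemma phi_le {Λ : Measure ℝ} (hs : Λ (Icc 0 1)ᶜ = 0) {a b : ℕ} (h : a ≤ b) : phi Λ b ≤ phi Λ a := by
  unfold phi
  apply lintegral_mono_ae
  filter_upwards [nu_supp hs] with u hu
  gcongr ENNReal.ofReal u * ?_
  apply pow_le_pow_right_of_le_one' _ h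
  rw [ENNReal.ofReal_le_one]; linarith [hu.1]

theorem hRH : Pool.Agent.Helper65.EV.hRH := by
  classical
  intro Λ hs n h
  refine ⟨?_, ?_⟩
  · intro a b hab
    unfold rh
    split_ifs with h1 h2
    · gcongr
      exact phi_le hs hab
    · omega
    · exact zero_le
    · exact le_rfl
  · intro a
    unfold rh
    split_ifs with ha
    · have key := sum_wt_eq (Λ := Λ) n h {K : Finset ℕ | IsLeast (K : Set ℕ) a} (by
        simp [IsLeast])
      rw [wS_least hs ha] at key
      unfold phi
      rw [← key]
      apply le_of_eq
      apply Finset.sum_congr _ (fun _ _ => rfl)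
      ext K
      simp
    · exact zero_le

end Pool.Agent.Helper89.EV
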